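import Pool.Agent.H37.SW.Prim
import Pool.Graph.R_pool_sql_team_39128cda.H.MP_451b27_lc.D

/-! The forbidden lists, as a computable function. -/

set_option autoImplicit false

namespace Pool.Agent.H37.SW

open Primrec Function Pool.Agent.H.MP_451b27_lc Pool.Agent.Lib.helper21.While
  Pool.Agent.Lib.helper21.Mach

/-- the graph with a given code -/
def graph (c : Code) : SimpleGraph (Fin c.1) :=
  SimpleGraph.fromRel fun u v => (u.val, v.val) ∈ c.2

def adj (c : Code) (u v : ℕ) : Prop := u ≠ v ∧ ((u, v) ∈ c.2 ∨ (v, u) ∈ c.2)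

theorem graph_adj {c : Code} (u v : Fin c.1) : (graph c).Adj u v ↔ adj c u.val v.val := by
  rw [graph, SimpleGraph.fromRel_adj, adj, Ne, Ne, Fin.ext_iff]

section prim

variable {α : Type} [Primcodable α] {c : α → Code} {u v w x o o' n : α → ℕ} {f : α → List ℕ}

theorem adj_pr (hc : Primrec c) (hu : Primrec u) (hv : Primrec v) :
    PrimrecPred fun a => adj (c a) (u a) (v a) := by
  have key : ∀ {u v : α → ℕ}, Primrec u → Primrec v → PrimrecPred fun a => (u a, v a) ∈ (c a).2 := by
    intro u v hu hv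
    refine (ex_mem (β := ℕ × ℕ) (snd.comp hc) (p := fun a b => b = (u a, v a)) ?_).of_eq
      fun a => by simp
    exact Primrec.eq.comp snd (Primrec.pair (hu.comp fst) (hv.comp fst))
  exact (Primrec.eq.comp hu hv).not.and ((key hu hv).or (key hv hu))

theorem getD_pr (hf : Primrec f) (hu : Primrec u) : Primrec fun a => (f a).getD (u a) 0 :=
  (Primrec.list_getD 0).comp hf hu

theorem filter_pr {β : Type} [Primcodable β] {f : α → List β} {p : α → β → Prop}
    [∀ a, DecidablePred (p a)] (hf : Primrec f) (hp : PrimrecPred fun x : α × β => p x.1 x.2) :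
    Primrec fun a => (f a).filter fun b => decide (p a b) := by
  have : Primrec fun a => (f a).filterMap fun b => if p a b then some b else none := by
    refine Primrec.listFilterMap hf ?_
    exact Primrec.ite hp (Primrec.option_some.comp snd) (Primrec.const none)
  refine this.of_eq fun a => ?_
  rw [← List.filterMap_eq_filter]
  refine List.filterMap_congr fun b _ => ?_
  simp [Option.guard]

end prim

/-- number of vertices of a type gadget -/
def typN (m T : ℕ) (c : Code) (v : ℕ) : Prop :=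
  ∃ f ∈ tup c.1 (2 * m + 3), (∀ a < 2 * m + 3, ∀ b < 2 * m + 3, a ≠ b →
    adj c (f.getD a 0) (f.getD b 0)) ∧ ∀ a < 2 * m + 3, (adj c v (f.getD a 0) ↔ a < T + 1)

theorem typN_pr {α : Type} [Primcodable α] {m T : ℕ} {c : α → Code} {v : α → ℕ} (hc : Primrec c)
    (hv : Primrec v) : PrimrecPred fun a => typN m T (c a) (v a) := by
  refine ex_mem (primrec_tup.comp (fst.comp hc) (Primrec.const _)) ?_
  refine PrimrecPred.and ?_ ?_
  · refine all_lt (Primrec.const _) ?_
    refine all_lt (Primrec.const _) ?_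
    refine imp' (Primrec.eq.comp (snd.comp fst) snd).not ?_
    exact adj_pr (hc.comp (fst.comp (fst.comp fst)))
      (getD_pr (snd.comp (fst.comp fst)) (snd.comp fst)) (getD_pr (snd.comp (fst.comp fst)) snd)
  · refine all_lt (Primrec.const _) ?_
    refine iff' ?_ ?_
    · exact adj_pr (hc.comp (fst.comp fst)) (hv.comp (fst.comp fst)) (getD_pr (snd.comp fst) snd)
    · exact Primrec.nat_lt.comp snd (Primrec.const _)

theorem exists_tup {k s : ℕ} {P : (ℕ → ℕ) → Prop} (hP : ∀ f g : ℕ → ℕ, (∀ i < s, f i = g i) →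
    P f → P g) : (∃ l ∈ tup k s, P fun i => l.getD i 0) ↔
      ∃ f : Fin s → Fin k, P fun i => if h : i < s then (f ⟨i, h⟩).val else 0 := by
  constructor
  · rintro ⟨l, hl, h⟩
    rw [mem_tup] at hl
    refine ⟨fun i => ⟨l.getD i.val 0, hl.2 _ ?_⟩, hP _ _ (fun i hi => ?_) h⟩
    · rw [List.getD_eq_getElem _ _ (by rw [hl.1]; exact i.2)]
      exact List.getElem_mem _
    · rw [dif_pos hi]
  · rintro ⟨f, h⟩
    refine ⟨List.ofFn fun i => (f i).val, mem_tup.2 ⟨by simp, ?_⟩, hP _ _ (fun i hi => ?_) h⟩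
    · intro a ha
      obtain ⟨i, rfl⟩ := List.mem_ofFn.1 ha
      exact (f i).2
    · rw [dif_pos hi, List.getD_eq_getElem _ _ (by simpa using hi)]
      simp

variable {Q : Type} {K m : ℕ} {en : Ty Q K ≃ Fin m}

theorem typ_graph {c : Code} {τ : Ty Q K} {v : Fin c.1} :
    typ en (graph c) τ v ↔ typN m (en τ).val c v.val := by
  rw [typN, exists_tup (P := fun f => (∀ a < 2 * m + 3, ∀ b < 2 * m + 3, a ≠ b →
    adj c (f a) (f b)) ∧ ∀ a < 2 * m + 3, (adj c v (f a) ↔ a < (en τ).val + 1))]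
  · refine exists_congr fun f => and_congr ?_ ?_
    · constructor
      · intro h a ha b hb hab
        beta_reduce
        rw [dif_pos ha, dif_pos hb, ← graph_adj]
        exact h _ _ fun h' => hab (Fin.mk.inj_iff.1 h')
      · intro h a b hab
        have := h a.1 a.2 b.1 b.2 fun h' => hab (Fin.ext h')
        beta_reduce at this
        rwa [dif_pos a.2, dif_pos b.2, ← graph_adj] at this
    · constructor
      · intro h a ha
        beta_reduce
        rw [dif_pos ha, ← graph_adj]
        exact h _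
      · intro h a
        have := h a.1 a.2
        beta_reduce at this
        rwa [dif_pos a.2, ← graph_adj] at this
  · intro f g hfg h
    refine ⟨fun a ha b hb hab => ?_, fun a ha => ?_⟩
    · rw [← hfg a ha, ← hfg b hb]; exact h.1 a ha b hb hab
    · rw [← hfg a ha]; exact h.2 a ha

section num

variable (en) (c : Code)

def scN (s : Bool) (a b : ℕ) : Prop :=
  ∃ k : ZMod 3, typN m (en (.inl (s, k))).val c a ∧ typN m (en (.inl (s, k + 1))).val c b ∧ adj c a b
def stN (r : Col Q K) (a b : ℕ) : Prop :=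
  (∃ k : ZMod 3, typN m (en (.inl (false, k))).val c a) ∧ typN m (en (.inr (.inr r))).val c b ∧
    adj c a b
def ogN (s : Bool) (o a : ℕ) : Prop :=
  typN m (en (.inr (.inl s))).val c o ∧ typN m (en (.inl (s, 0))).val c a ∧ adj c o a

def BadI (r0 : Fin K) (n : ℕ) : Prop :=
  ∃ x < c.1, ∃ o < c.1, ∃ o' < c.1, ∃ w < c.1, ∃ v ∈ tup c.1 (n + 1),
    ogN en c true o x ∧ (∀ j < n, scN en c false (v.getD j 0) (v.getD (j + 1) 0)) ∧
    ((stN en c (.inr r0) (v.getD n 0) w ∧ adj c x w) ∨
      (ogN en c false o' (v.getD 0 0) ∧ ∃ j < n, stN en c (.inr r0) (v.getD j 0) w ∧ ¬adj c x w))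

end num

theorem sc_graph {c : Code} {s : Bool} {a b : Fin c.1} :
    sc (typ en (graph c)) (graph c).Adj s a b ↔ scN en c s a b := by
  refine exists_congr fun k => ?_
  rw [typ_graph, typ_graph, graph_adj]

theorem st_graph {c : Code} {r : Col Q K} {a b : Fin c.1} :
    st (typ en (graph c)) (graph c).Adj r a b ↔ stN en c r a b := by
  refine and_congr (exists_congr fun k => typ_graph) ?_
  rw [typ_graph, graph_adj]

theorem og_graph {c : Code} {s : Bool} {a b : Fin c.1} :
    og (typ en (graph c)) (graph c).Adj s a b ↔ ogN en c s a b := by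
  rw [og, ogN, typ_graph, typ_graph, graph_adj]

theorem badI_iff {c : Code} {r0 : Fin K} {n : ℕ} : BadI en c r0 n ↔ ¬GoodI en r0 n (graph c) := by
  have mx : ∀ {v : List ℕ}, v ∈ tup c.1 (n + 1) → ∀ j ≤ n, v.getD j 0 < c.1 := by
    intro v hv j hj
    rw [mem_tup] at hv
    rw [List.getD_eq_getElem _ _ (by rw [hv.1]; omega)]
    exact hv.2 _ (List.getElem_mem _)
  constructor
  · rintro ⟨x, hx, o, ho, o', ho', w, hw, v, hv, h1, h2, h3⟩ H
    let v' : ℕ → Fin c.1 := fun j => if h : v.getD j 0 < c.1 then ⟨v.getD j 0, h⟩ else ⟨x, hx⟩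
    have e : ∀ j ≤ n, (v' j).val = v.getD j 0 := fun j hj => by
      simp only [v', dif_pos (mx hv j hj)]
    have := H ⟨x, hx⟩ ⟨o, ho⟩ ⟨o', ho'⟩ ⟨w, hw⟩ v' (og_graph.2 h1) fun j hj => by
      rw [sc_graph, e j hj.le, e (j + 1) hj]
      exact h2 j hj
    rcases h3 with ⟨h3, h4⟩ | ⟨h3, j, hj, h4, h5⟩
    · refine this.1 ?_ ?_
      · rw [st_graph, e n le_rfl]; exact h3
      · rw [graph_adj]; exact h4
    · refine h5 ?_
      have := this.2 (by rw [og_graph, e 0 (Nat.zero_le _)]; exact h3) j hj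
        (by rw [st_graph, e j hj.le]; exact h4)
      rwa [graph_adj] at this
  · intro H
    simp only [GoodI, PhiI, not_forall] at H
    obtain ⟨x, o, o', w, v, h1, h2, h3⟩ := H
    refine ⟨x, x.2, o, o.2, o', o'.2, w, w.2, List.ofFn fun i : Fin (n + 1) => (v i.val).val,
      mem_tup.2 ⟨by simp, ?_⟩, og_graph.1 h1, fun j hj => ?_, ?_⟩
    · intro a ha
      obtain ⟨i, rfl⟩ := List.mem_ofFn.1 ha
      exact (v i).2
    · have := sc_graph.1 (h2 j hj)
      rwa [List.getD_eq_getElem _ _ (by simp; omega), List.getD_eq_getElem _ _ (by simp; omega),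
        List.getElem_ofFn, List.getElem_ofFn]
    · rw [not_and_or] at h3
      rcases h3 with h3 | h3
      · left
        push Not at h3
        refine ⟨?_, (graph_adj _ _).1 h3.2⟩
        rw [List.getD_eq_getElem _ _ (by simp), List.getElem_ofFn]
        exact st_graph.1 h3.1
      · right
        push Not at h3
        obtain ⟨h3, j, hj, h4, h5⟩ := h3
        refine ⟨?_, j, hj, ?_, fun h => h5 ((graph_adj _ _).2 h)⟩
        · rw [List.getD_eq_getElem _ _ (by simp), List.getElem_ofFn]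
          exact og_graph.1 h3
        · rw [List.getD_eq_getElem _ _ (by simp; omega), List.getElem_ofFn]
          exact st_graph.1 h4

section prim2

variable {α : Type} [Primcodable α] {c : α → Code} {u v : α → ℕ}

theorem scN_pr (hc : Primrec c) (hu : Primrec u) (hv : Primrec v) {s : Bool} :
    PrimrecPred fun a => scN en (c a) s (u a) (v a) := by
  have : Finite (ZMod 3) := inferInstanceAs (Finite (Fin 3))
  exact ex_fin fun k => (typN_pr hc hu).and ((typN_pr hc hv).and (adj_pr hc hu hv))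

theorem stN_pr (hc : Primrec c) (hu : Primrec u) (hv : Primrec v) {r : Col Q K} :
    PrimrecPred fun a => stN en (c a) r (u a) (v a) := by
  have : Finite (ZMod 3) := inferInstanceAs (Finite (Fin 3))
  exact (ex_fin fun k => typN_pr hc hu).and ((typN_pr hc hv).and (adj_pr hc hu hv))

theorem ogN_pr (hc : Primrec c) (hu : Primrec u) (hv : Primrec v) {s : Bool} :
    PrimrecPred fun a => ogN en (c a) s (u a) (v a) :=
  (typN_pr hc hu).and ((typN_pr hc hv).and (adj_pr hc hu hv))

theorem badI_pr {r0 : Fin K} : PrimrecPred fun x : ℕ × Code => BadI en x.2 r0 x.1 := by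
  refine ex_lt (fst.comp snd) (ex_lt (fst.comp (snd.comp fst)) (ex_lt
    (fst.comp (snd.comp (fst.comp fst))) (ex_lt (fst.comp (snd.comp (fst.comp (fst.comp fst)))) ?_)))
  let F1 : ((((ℕ × Code) × ℕ) × ℕ) × ℕ) × ℕ → ℕ × Code := fun a => a.1.1.1.1
  have hF1 : Primrec F1 := fst.comp (fst.comp (fst.comp fst))
  refine ex_mem (primrec_tup.comp (fst.comp (snd.comp hF1)) (succ.comp (fst.comp hF1))) ?_
  have hn : Primrec fun a : (((((ℕ × Code) × ℕ) × ℕ) × ℕ) × ℕ) × List ℕ => a.1.1.1.1.1.1 :=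
    fst.comp (fst.comp (fst.comp (fst.comp (fst.comp fst))))
  have hc : Primrec fun a : (((((ℕ × Code) × ℕ) × ℕ) × ℕ) × ℕ) × List ℕ => a.1.1.1.1.1.2 :=
    snd.comp (fst.comp (fst.comp (fst.comp (fst.comp fst))))
  have hx : Primrec fun a : (((((ℕ × Code) × ℕ) × ℕ) × ℕ) × ℕ) × List ℕ => a.1.1.1.1.2 :=
    snd.comp (fst.comp (fst.comp (fst.comp fst)))
  have ho : Primrec fun a : (((((ℕ × Code) × ℕ) × ℕ) × ℕ) × ℕ) × List ℕ => a.1.1.1.2 :=
    snd.comp (fst.comp (fst.comp fst))
  have ho' : Primrec fun a : (((((ℕ × Code) × ℕ) × ℕ) × ℕ) × ℕ) × List ℕ => a.1.1.2 :=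
    snd.comp (fst.comp fst)
  have hw : Primrec fun a : (((((ℕ × Code) × ℕ) × ℕ) × ℕ) × ℕ) × List ℕ => a.1.2 :=
    snd.comp fst
  have hv : Primrec fun a : (((((ℕ × Code) × ℕ) × ℕ) × ℕ) × ℕ) × List ℕ => a.2 := snd
  refine (ogN_pr hc ho hx).and (PrimrecPred.and ?_ (PrimrecPred.or ?_ ?_))
  · refine all_lt hn ?_
    exact scN_pr (hc.comp fst) (getD_pr (hv.comp fst) snd) (getD_pr (hv.comp fst) (succ.comp snd))
  · exact (stN_pr hc (getD_pr hv hn) hw).and (adj_pr hc hx hw)
  · refine (ogN_pr hc ho' (getD_pr hv (Primrec.const 0))).and (ex_lt hn ?_)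
    exact (stN_pr (hc.comp fst) (getD_pr (hv.comp fst) snd) (hw.comp fst)).and
      (adj_pr (hc.comp fst) (hx.comp fst) (hw.comp fst)).not

end prim2

end Pool.Agent.H37.SW
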