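import Mathlib

/-! Closure properties of primitive recursive predicates. -/

set_option autoImplicit false

namespace Pool.Agent.H37.SW

open Primrec

variable {α β : Type} [Primcodable α] [Primcodable β]

theorem ex_mem {f : α → List β} {p : α → β → Prop} (hf : Primrec f)
    (hp : PrimrecPred fun x : α × β => p x.1 x.2) : PrimrecPred fun a => ∃ b ∈ f a, p a b := by
  have h : PrimrecRel fun (b : β) (a : α) => p a b :=
    hp.comp (Primrec.pair snd fst : Primrec fun x : β × α => (x.2, x.1))
  exact (h.exists_mem_list).comp hf Primrec.id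

theorem all_mem {f : α → List β} {p : α → β → Prop} (hf : Primrec f)
    (hp : PrimrecPred fun x : α × β => p x.1 x.2) : PrimrecPred fun a => ∀ b ∈ f a, p a b := by
  have h : PrimrecRel fun (b : β) (a : α) => p a b :=
    hp.comp (Primrec.pair snd fst : Primrec fun x : β × α => (x.2, x.1))
  exact (h.forall_mem_list).comp hf Primrec.id

theorem ex_lt {f : α → ℕ} {p : α → ℕ → Prop} (hf : Primrec f)
    (hp : PrimrecPred fun x : α × ℕ => p x.1 x.2) : PrimrecPred fun a => ∃ b < f a, p a b :=
  (ex_mem (list_range.comp hf) hp).of_eq fun a => by simp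

theorem all_lt {f : α → ℕ} {p : α → ℕ → Prop} (hf : Primrec f)
    (hp : PrimrecPred fun x : α × ℕ => p x.1 x.2) : PrimrecPred fun a => ∀ b < f a, p a b :=
  (all_mem (list_range.comp hf) hp).of_eq fun a => by simp

theorem imp' {p q : α → Prop} (hp : PrimrecPred p) (hq : PrimrecPred q) :
    PrimrecPred fun a => p a → q a :=
  (hp.not.or hq).of_eq fun a => by
    constructor
    · rintro (h | h) h'
      · exact (h h').elim
      · exact h
    · intro h
      by_cases h' : p a
      · exact Or.inr (h h')
      · exact Or.inl h'

theorem iff' {p q : α → Prop} (hp : PrimrecPred p) (hq : PrimrecPred q) :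
    PrimrecPred fun a => (p a ↔ q a) :=
  ((imp' hp hq).and (imp' hq hp)).of_eq fun _ => iff_iff_implies_and_implies.symm

theorem ex_fin {ι : Type} [Finite ι] {p : ι → α → Prop} (hp : ∀ i, PrimrecPred (p i)) :
    PrimrecPred fun a => ∃ i, p i a := by
  classical
  cases nonempty_fintype ι
  have key : ∀ s : Finset ι, PrimrecPred fun a => ∃ i ∈ s, p i a := by
    intro s
    induction s using Finset.induction_on with
    | empty =>
      refine (PrimrecPred.of_eq (p := fun _ : α => False) ?_) fun a => by simp
      exact ⟨fun _ => isFalse not_false, Primrec.const false⟩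
    | insert i s _ ih =>
      exact ((hp i).or ih).of_eq fun a => by simp
  exact (key Finset.univ).of_eq fun a => by simp

/-- all lists of length `s` with entries below `k` -/
def tup (k : ℕ) : ℕ → List (List ℕ)
  | 0 => [[]]
  | s + 1 => (tup k s).flatMap fun l => (List.range k).map fun a => a :: l

theorem mem_tup {k s : ℕ} {l : List ℕ} : l ∈ tup k s ↔ l.length = s ∧ ∀ a ∈ l, a < k := by
  induction s generalizing l with
  | zero =>
    rw [tup, List.mem_singleton, List.length_eq_zero_iff]
    constructor
    · rintro rfl; simp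
    · exact fun h => h.1
  | succ s ih =>
    rw [tup, List.mem_flatMap]
    constructor
    · rintro ⟨l', h1, h2⟩
      obtain ⟨a, ha, rfl⟩ := List.mem_map.1 h2
      rw [ih] at h1
      refine ⟨by simp [h1.1], ?_⟩
      intro b hb
      rcases List.mem_cons.1 hb with rfl | hb
      · exact List.mem_range.1 ha
      · exact h1.2 b hb
    · rintro ⟨h1, h2⟩
      cases l with
      | nil => simp at h1
      | cons a l' =>
        refine ⟨l', ih.2 ⟨by simpa using h1, fun b hb => h2 b (List.mem_cons_of_mem _ hb)⟩, ?_⟩
        exact List.mem_map.2 ⟨a, List.mem_range.2 (h2 a List.mem_cons_self), rfl⟩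

theorem primrec_tup : Primrec₂ tup := by
  have h : Primrec₂ fun (k s : ℕ) => (Nat.rec (motive := fun _ => List (List ℕ)) [[]]
      (fun _ r => r.flatMap fun l => (List.range k).map fun a => a :: l) s) := by
    refine Primrec.nat_rec (f := fun _ : ℕ => ([[]] : List (List ℕ)))
      (g := fun (k : ℕ) (x : ℕ × List (List ℕ)) =>
        x.2.flatMap fun l => (List.range k).map fun a => a :: l) (Primrec.const _) ?_
    refine Primrec.list_flatMap (snd.comp snd) ?_
    refine Primrec.list_map (list_range.comp (fst.comp fst)) ?_
    exact Primrec.list_cons.comp snd (snd.comp fst)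
  refine h.of_eq fun k s => ?_
  induction s with
  | zero => rfl
  | succ s ih => simp only [tup, ← ih]

/-- all sublists -/
def pw {α : Type} (l : List α) : List (List α) := l.foldr (fun a r => r ++ r.map (List.cons a)) [[]]

theorem filter_mem_pw {α : Type} (p : α → Bool) (l : List α) : l.filter p ∈ pw l := by
  induction l with
  | nil => simp [pw]
  | cons a l ih =>
    have e : pw (a :: l) = pw l ++ (pw l).map (List.cons a) := rfl
    rw [e, List.mem_append, List.filter_cons]
    split
    · exact Or.inr (List.mem_map.2 ⟨_, ih, rfl⟩)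
    · exact Or.inl ih

theorem primrec_pw : Primrec (pw (α := α)) := by
  refine Primrec.list_foldr (f := fun l : List α => l) (g := fun _ => ([[]] : List (List α)))
    (h := fun _ x => x.2 ++ x.2.map (List.cons x.1)) Primrec.id (Primrec.const _) ?_
  refine Primrec.list_append.comp (snd.comp snd) ?_
  refine Primrec.list_map (snd.comp snd) ?_
  exact Primrec.list_cons.comp (fst.comp (snd.comp fst)) snd

/-- all pairs of numbers below `k` -/
def prs (k : ℕ) : List (ℕ × ℕ) := (List.range k).flatMap fun i => (List.range k).map fun j => (i, j)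

theorem mem_prs {k : ℕ} {x : ℕ × ℕ} : x ∈ prs k ↔ x.1 < k ∧ x.2 < k := by
  rw [prs, List.mem_flatMap]
  constructor
  · rintro ⟨i, hi, h⟩
    obtain ⟨j, hj, rfl⟩ := List.mem_map.1 h
    exact ⟨List.mem_range.1 hi, List.mem_range.1 hj⟩
  · intro h
    exact ⟨x.1, List.mem_range.2 h.1, List.mem_map.2 ⟨x.2, List.mem_range.2 h.2, rfl⟩⟩

theorem primrec_prs : Primrec prs :=
  Primrec.list_flatMap list_range
    (Primrec.list_map (list_range.comp fst) (Primrec.pair (snd.comp fst) snd))

/-- a code of a finite graph: the number of vertices and a list of pairs of vertices -/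
abbrev Code : Type := ℕ × List (ℕ × ℕ)

/-- all codes with at most `b` vertices -/
def codes (b : ℕ) : List Code :=
  (List.range (b + 1)).flatMap fun k => (pw (prs k)).map fun l => (k, l)

theorem primrec_codes : Primrec codes :=
  Primrec.list_flatMap (list_range.comp (succ.comp Primrec.id))
    (Primrec.list_map (primrec_pw.comp (primrec_prs.comp snd)) (Primrec.pair (snd.comp fst) snd))

theorem mem_codes {b k : ℕ} (hk : k ≤ b) (p : ℕ × ℕ → Bool) :
    ((k, (prs k).filter p) : Code) ∈ codes b := by
  rw [codes, List.mem_flatMap]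
  exact ⟨k, List.mem_range.2 (by omega), List.mem_map.2 ⟨_, filter_mem_pw p _, rfl⟩⟩

end Pool.Agent.H37.SW
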